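import Pool.Agent.Helper87_UT.Stmts

/-!
# Module BAD of the squad UT: most labellings have small blocks
-/

set_option autoImplicit false

namespace Pool.Agent.UT.H25

open Finset
open Pool.Agent.UT

theorem second_moment (k : ℕ) (y : Fin k → ℝ) (hy : ∑ j, y j = 0) (hy2 : ∑ j, (y j) ^ 2 ≤ 1) :
    ∀ n : ℕ, (k : ℝ) * ∑ lab : Fin n → Fin k, (∑ v, y (lab v)) ^ 2 ≤ n * (k : ℝ) ^ n := by
  intro n
  induction n with
  | zero => simp
  | succ n ih =>
    have h1 : ∑ lab : Fin (n + 1) → Fin k, (∑ v, y (lab v)) ^ 2 =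
        k * ∑ lab : Fin n → Fin k, (∑ v, y (lab v)) ^ 2 + (k : ℝ) ^ n * ∑ j, (y j) ^ 2 := by
      have h2 : ∑ lab : Fin (n + 1) → Fin k, (∑ v, y (lab v)) ^ 2 =
          ∑ p : Fin k × (Fin n → Fin k), (y p.1 + ∑ v, y (p.2 v)) ^ 2 := by
        refine (Fintype.sum_equiv (Fin.consEquiv fun _ => Fin k) _ _ ?_).symm
        rintro ⟨j, lab⟩
        rw [Fin.sum_univ_succ]
        simp [Fin.consEquiv]
      rw [h2, Fintype.sum_prod_type_right]
      have h3 : ∀ lab : Fin n → Fin k, ∑ j, (y j + ∑ v, y (lab v)) ^ 2 =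
          k * (∑ v, y (lab v)) ^ 2 + ∑ j, (y j) ^ 2 := by
        intro lab
        have h4 : ∀ j, (y j + ∑ v, y (lab v)) ^ 2 =
            (y j) ^ 2 + y j * (2 * ∑ v, y (lab v)) + (∑ v, y (lab v)) ^ 2 := by
          intro j; ring
        simp only [h4]
        rw [Finset.sum_add_distrib, Finset.sum_add_distrib, ← Finset.sum_mul, hy]
        simp
        ring
      rw [Finset.sum_congr rfl fun lab _ => h3 lab, Finset.sum_add_distrib, ← Finset.mul_sum]
      simp
    rw [h1, mul_add]
    have hk : (0 : ℝ) ≤ k := Nat.cast_nonneg _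
    have h5 : (k : ℝ) * (k * ∑ lab : Fin n → Fin k, (∑ v, y (lab v)) ^ 2) ≤
        k * (n * (k : ℝ) ^ n) := mul_le_mul_of_nonneg_left ih hk
    have h6 : (k : ℝ) * ((k : ℝ) ^ n * ∑ j, (y j) ^ 2) ≤ k * ((k : ℝ) ^ n * 1) := by
      refine mul_le_mul_of_nonneg_left (mul_le_mul_of_nonneg_left hy2 (by positivity)) hk
    push_cast
    calc _ ≤ (k : ℝ) * (n * (k : ℝ) ^ n) + k * ((k : ℝ) ^ n * 1) := add_le_add h5 h6
      _ = _ := by ring

theorem bad : BadStmt := by
  classical
  intro k n hk hn
  have hkR : (0 : ℝ) < k := by exact_mod_cast hk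
  have hnR : (0 : ℝ) < n := by exact_mod_cast hn
  have hk1 : (1 : ℝ) ≤ k := by exact_mod_cast hk
  -- one block
  have hone : ∀ i : Fin k, (n : ℝ) * ((univ.filter fun lab : Fin n → Fin k =>
      (2 * n / k : ℝ) < ((univ.filter (fun v => lab v = i)).card : ℝ)).card : ℝ) ≤
      (k : ℝ) * (k : ℝ) ^ n := by
    intro i
    set y : Fin k → ℝ := fun j => (if j = i then 1 else 0) - 1 / k with hy
    have hy0 : ∑ j, y j = 0 := by
      simp only [hy, Finset.sum_sub_distrib]
      simp
      field_simp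
      simp
    have hy2 : ∑ j, (y j) ^ 2 ≤ 1 := by
      have h1 : ∀ j, (y j) ^ 2 = (if j = i then 1 - 2 / (k : ℝ) else 0) + 1 / (k : ℝ) ^ 2 := by
        intro j
        simp only [hy]
        split_ifs
        · ring
        · ring
      rw [Finset.sum_congr rfl fun j _ => h1 j, Finset.sum_add_distrib]
      simp only [Finset.sum_ite_eq', Finset.mem_univ, if_true, Finset.sum_const, card_univ,
        Fintype.card_fin, nsmul_eq_mul]
      have h2 : (k : ℝ) * (1 / (k : ℝ) ^ 2) = 1 / k := by field_simp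
      rw [h2]
      have h3 : (0 : ℝ) < 1 / k := by positivity
      have h4 : (2 : ℝ) / k = 2 * (1 / k) := by ring
      rw [h4]
      linarith
    have hsm := second_moment k y hy0 hy2 n
    have hcard : ∀ lab : Fin n → Fin k, ∑ v, y (lab v) =
        ((univ.filter (fun v => lab v = i)).card : ℝ) - n / k := by
      intro lab
      simp only [hy, Finset.sum_sub_distrib]
      simp [div_eq_mul_inv]
    have hlow : ((univ.filter fun lab : Fin n → Fin k =>
        (2 * n / k : ℝ) < ((univ.filter (fun v => lab v = i)).card : ℝ)).card : ℝ) *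
        (n / k : ℝ) ^ 2 ≤ ∑ lab : Fin n → Fin k, (∑ v, y (lab v)) ^ 2 := by
      rw [← nsmul_eq_mul, ← Finset.sum_const]
      refine le_trans (Finset.sum_le_sum fun lab hlab => ?_)
        (Finset.sum_le_univ_sum_of_nonneg fun lab => sq_nonneg _)
      rw [hcard]
      have h1 := (Finset.mem_filter.1 hlab).2
      have h2 : (0 : ℝ) ≤ n / k := by positivity
      have h3 : (2 * n / k : ℝ) = n / k + n / k := by ring
      rw [h3] at h1
      exact pow_le_pow_left₀ h2 (by linarith) 2
    have h5 := (mul_le_mul_of_nonneg_left hlow hkR.le).trans hsm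
    set B : ℝ := ((univ.filter fun lab : Fin n → Fin k =>
        (2 * n / k : ℝ) < ((univ.filter (fun v => lab v = i)).card : ℝ)).card : ℝ) with hB
    have h6 : (k : ℝ) * (B * (n / k : ℝ) ^ 2) = n * (n * B) / k := by
      field_simp
    rw [h6, div_le_iff₀ hkR] at h5
    have h7 : (n : ℝ) * (n * B) ≤ n * (k * (k : ℝ) ^ n) := by
      calc (n : ℝ) * (n * B) ≤ n * (k : ℝ) ^ n * k := h5
        _ = _ := by ring
    exact le_of_mul_le_mul_left h7 hnR
  have hsub : (univ.filter fun lab : Fin n → Fin k =>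
      ¬ ∀ i, ((univ.filter (fun v => (lab v).val = i)).card : ℝ) / n ≤ 2 / k) ⊆
      (univ : Finset (Fin k)).biUnion fun i => univ.filter fun lab : Fin n → Fin k =>
      (2 * n / k : ℝ) < ((univ.filter (fun v => lab v = i)).card : ℝ) := by
    intro lab hlab
    simp only [Finset.mem_filter, Finset.mem_univ, true_and, not_forall, not_le,
      Finset.mem_biUnion] at hlab ⊢
    obtain ⟨i, hi⟩ := hlab
    by_cases hik : i < k
    · refine ⟨⟨i, hik⟩, ?_⟩
      have h1 : (univ.filter (fun v => (lab v).val = i)) =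
          univ.filter (fun v => lab v = ⟨i, hik⟩) := by
        ext v
        simp [Fin.ext_iff]
      rw [h1, lt_div_iff₀ hnR] at hi
      calc (2 * n / k : ℝ) = 2 / k * n := by ring
        _ < _ := hi
    · exfalso
      have h1 : (univ.filter (fun v => (lab v).val = i)) = ∅ := by
        ext v
        simp only [Finset.mem_filter, Finset.mem_univ, true_and, Finset.notMem_empty, iff_false]
        have := (lab v).isLt
        omega
      rw [h1] at hi
      simp at hi
      have : (0 : ℝ) < 2 / k := by positivity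
      linarith
  have hle := (Finset.card_le_card hsub).trans Finset.card_biUnion_le
  have hleR : ((univ.filter fun lab : Fin n → Fin k =>
      ¬ ∀ i, ((univ.filter (fun v => (lab v).val = i)).card : ℝ) / n ≤ 2 / k).card : ℝ) ≤
      ∑ i : Fin k, ((univ.filter fun lab : Fin n → Fin k =>
      (2 * n / k : ℝ) < ((univ.filter (fun v => lab v = i)).card : ℝ)).card : ℝ) := by
    exact_mod_cast hle
  calc _ ≤ (n : ℝ) * ∑ i : Fin k, ((univ.filter fun lab : Fin n → Fin k =>
      (2 * n / k : ℝ) < ((univ.filter (fun v => lab v = i)).card : ℝ)).card : ℝ) :=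
        mul_le_mul_of_nonneg_left hleR hnR.le
    _ ≤ ∑ _i : Fin k, (k : ℝ) * (k : ℝ) ^ n := by
        rw [Finset.mul_sum]
        exact Finset.sum_le_sum fun i _ => hone i
    _ = (k : ℝ) ^ 2 * (k : ℝ) ^ n := by
        rw [Finset.sum_const, card_univ, Fintype.card_fin, nsmul_eq_mul]
        ring
    _ ≤ _ := by
        refine mul_le_mul_of_nonneg_right ?_ (by positivity)
        exact pow_le_pow_right₀ hk1 (by norm_num)

end Pool.Agent.UT.H25
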