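import Pool.Agent.Helper87_UT.Stmts

/-!
# Module CMT of the squad UT: completeness and soundness with small error
-/

set_option autoImplicit false

namespace Pool.Agent.UT.H25

open Finset
open Pool.Agent.UT
open Pool.Agent.Helper76_Bisect

section
open Classical

variable {V : Type} [Fintype V] {k t m : ℕ}

/-- completeness -/
theorem complete' [Nonempty V] (G : SimpleGraph V) {Λ : ℝ} (hΛ : 0 ≤ Λ) (ht : 0 < t)
    (hm : 0 < m) (lab : V → Fin k) (ρ δ a c : ℝ) (hδ : 0 < δ) (ha0 : 0 ≤ a) (ha : a ≤ 2)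
    (hblock : ∀ i, (((univ.filter (fun v => (lab v).val = i)).card : ℝ) /
      (Fintype.card V : ℝ)) ≤ c)
    (h1 : 10 * (1 + Λ) / Real.sqrt t ≤ δ / 40) (h2 : k * ((Λ + 1) * c ^ 2) ≤ δ)
    (h3 : a * (1 + Λ) ≤ δ) (h4 : 4 * Real.exp (-(a ^ 2 / 4 * m)) ≤ 1 / 40)
    (y0 : V → Bool) (hobj : obj G Λ y0 ≤ ρ) :
    ((univ.filter (fun p : (Fin k → Fin t → V) × (Fin m → V × V) =>
      ¬ accept G Λ lab (ρ + 3 * δ) p.1 p.2)).card : ℝ) ≤
      (Fintype.card ((Fin k → Fin t → V) × (Fin m → V × V)) : ℝ) * (1 / 20) := by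
  set lab' : V → ℕ := fun v => (lab v).val with hlab'
  set E : (Fin k → Fin t → V) → ℝ := fun U => ∑ i ∈ range k, stepErr G Λ lab' (ext U) y0 i with hE
  have hE0 : ∀ U, 0 ≤ E U := by
    intro U
    refine Finset.sum_nonneg fun i _ => ?_
    unfold stepErr
    exact div_nonneg (Finset.sum_nonneg fun _ _ => abs_nonneg _) (Nat.cast_nonneg _)
  have hsum : ∑ U, E U ≤ (Fintype.card (Fin k → Fin t → V) : ℝ) * (δ / 40) :=
    (sum_stepErr G hΛ ht lab' y0).trans (mul_le_mul_of_nonneg_left h1 (Nat.cast_nonneg _))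
  -- good `U`
  have hgood : ∀ U, E U < δ → ((univ.filter (fun W : Fin m → V × V =>
      ¬ accept G Λ lab (ρ + 3 * δ) U W)).card : ℝ) ≤
      (Fintype.card (Fin m → V × V) : ℝ) * (1 / 40) := by
    intro U hU
    set y : V → Bool := yh G Λ lab' (ext U) y0 k with hy
    have hobjy : obj G Λ y ≤ ρ + 2 * δ := by
      have := obj_yh G hΛ lab' (ext U) y0 c hblock k
      change obj G Λ y ≤ obj G Λ y0 + E U + _ at this
      linarith
    let π : Fin k → Fin t → Bool := fun j s => yh G Λ lab' (ext U) y0 j.val (U j s)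
    have hyg : y = yg G Λ lab U π := by
      funext v
      rw [hy, yh_final G Λ lab' (ext U) y0 v k (lab v).isLt]
      have hext : ext U (lab' v) = U (lab v) := by
        unfold Helper76_Bisect.ext
        rw [dif_pos (lab v).isLt]
      rw [hext]
      rfl
    have hd := objhat_dev (m := m) G hΛ hm y a ha0 ha
    refine le_trans ?_ (hd.trans (mul_le_mul_of_nonneg_left h4 (Nat.cast_nonneg _)))
    have hsub : (univ.filter (fun W : Fin m → V × V => ¬ accept G Λ lab (ρ + 3 * δ) U W)) ⊆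
        (univ.filter (fun W : Fin m → V × V =>
          ¬ |objhat G Λ W y - obj G Λ y| ≤ a * (1 + Λ))) := by
      intro W hW
      simp only [Finset.mem_filter, Finset.mem_univ, true_and] at hW ⊢
      intro hcon
      apply hW
      refine ⟨π, ?_⟩
      rw [← hyg]
      have := (abs_le.mp hcon).2
      linarith
    exact_mod_cast Finset.card_le_card hsub
  rw [card_filter_prod (fun (U : Fin k → Fin t → V) (W : Fin m → V × V) =>
    ¬ accept G Λ lab (ρ + 3 * δ) U W)]
  have hbound : ∀ U, ((univ.filter (fun W : Fin m → V × V =>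
      ¬ accept G Λ lab (ρ + 3 * δ) U W)).card : ℝ) ≤
      (Fintype.card (Fin m → V × V) : ℝ) * (1 / 40 + E U / δ) := by
    intro U
    by_cases hU : E U < δ
    · refine (hgood U hU).trans (mul_le_mul_of_nonneg_left ?_ (Nat.cast_nonneg _))
      have : 0 ≤ E U / δ := div_nonneg (hE0 U) hδ.le
      linarith
    · push Not at hU
      have h5 : 1 ≤ E U / δ := by rw [le_div_iff₀ hδ]; linarith
      have h6 : ((univ.filter (fun W : Fin m → V × V =>
        ¬ accept G Λ lab (ρ + 3 * δ) U W)).card : ℝ) ≤ Fintype.card (Fin m → V × V) := by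
        exact_mod_cast Finset.card_le_univ _
      have h7 : (0 : ℝ) ≤ Fintype.card (Fin m → V × V) := Nat.cast_nonneg _
      nlinarith
  calc ∑ U, ((univ.filter (fun W : Fin m → V × V =>
      ¬ accept G Λ lab (ρ + 3 * δ) U W)).card : ℝ)
      ≤ ∑ U, (Fintype.card (Fin m → V × V) : ℝ) * (1 / 40 + E U / δ) :=
        Finset.sum_le_sum fun U _ => hbound U
    _ = (Fintype.card (Fin m → V × V) : ℝ) *
        ((Fintype.card (Fin k → Fin t → V) : ℝ) * (1 / 40) + (∑ U, E U) / δ) := by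
        rw [← Finset.mul_sum, Finset.sum_add_distrib, Finset.sum_const,
          card_univ, nsmul_eq_mul, ← Finset.sum_div]
    _ ≤ (Fintype.card (Fin m → V × V) : ℝ) *
        ((Fintype.card (Fin k → Fin t → V) : ℝ) * (1 / 40) +
          (Fintype.card (Fin k → Fin t → V) : ℝ) * (1 / 40)) := by
        refine mul_le_mul_of_nonneg_left ?_ (Nat.cast_nonneg _)
        have : (∑ U, E U) / δ ≤ (Fintype.card (Fin k → Fin t → V) : ℝ) * (1 / 40) := by
          rw [div_le_iff₀ hδ]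
          linarith
        linarith
    _ = _ := by
        rw [Fintype.card_prod]; push_cast; ring

/-- soundness -/
theorem sound' [Nonempty V] (G : SimpleGraph V) {Λ : ℝ} (hΛ : 0 ≤ Λ)
    (hm : 0 < m) (lab : V → Fin k) (ρ δ a : ℝ) (hδ : 0 < δ) (ha0 : 0 ≤ a) (ha : a ≤ 2)
    (h3 : a * (1 + Λ) ≤ δ)
    (h4 : 2 ^ (k * t) * (4 * Real.exp (-(a ^ 2 / 4 * m))) ≤ 1 / 20)
    (hobj : ∀ y : V → Bool, ρ + 5 * δ ≤ obj G Λ y) :
    ((univ.filter (fun p : (Fin k → Fin t → V) × (Fin m → V × V) =>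
      accept G Λ lab (ρ + 3 * δ) p.1 p.2)).card : ℝ) ≤
      (Fintype.card ((Fin k → Fin t → V) × (Fin m → V × V)) : ℝ) * (1 / 20) := by
  rw [card_filter_prod (fun (U : Fin k → Fin t → V) (W : Fin m → V × V) =>
    accept G Λ lab (ρ + 3 * δ) U W)]
  have hbound : ∀ U : Fin k → Fin t → V, ((univ.filter (fun W : Fin m → V × V =>
      accept G Λ lab (ρ + 3 * δ) U W)).card : ℝ) ≤
      (Fintype.card (Fin m → V × V) : ℝ) * (1 / 20) := by
    intro U
    have hsub : (univ.filter (fun W : Fin m → V × V => accept G Λ lab (ρ + 3 * δ) U W)) ⊆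
        (univ : Finset (Fin k → Fin t → Bool)).biUnion (fun π =>
          univ.filter (fun W : Fin m → V × V =>
            ¬ |objhat G Λ W (yg G Λ lab U π) - obj G Λ (yg G Λ lab U π)| ≤ a * (1 + Λ))) := by
      intro W hW
      simp only [Finset.mem_filter, Finset.mem_univ, true_and, Finset.mem_biUnion] at hW ⊢
      obtain ⟨π, hπ⟩ := hW
      refine ⟨π, fun hcon => ?_⟩
      have h5 := hobj (yg G Λ lab U π)
      have h6 := (abs_le.mp hcon).1
      linarith
    have hcard := (Finset.card_le_card hsub).trans Finset.card_biUnion_le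
    have hcardR : ((univ.filter (fun W : Fin m → V × V =>
        accept G Λ lab (ρ + 3 * δ) U W)).card : ℝ) ≤
        ∑ π : Fin k → Fin t → Bool, ((univ.filter (fun W : Fin m → V × V =>
            ¬ |objhat G Λ W (yg G Λ lab U π) - obj G Λ (yg G Λ lab U π)| ≤ a * (1 + Λ))).card : ℝ) := by
      exact_mod_cast hcard
    refine hcardR.trans ?_
    calc ∑ π : Fin k → Fin t → Bool, ((univ.filter (fun W : Fin m → V × V =>
            ¬ |objhat G Λ W (yg G Λ lab U π) - obj G Λ (yg G Λ lab U π)| ≤ a * (1 + Λ))).card : ℝ)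
        ≤ ∑ _π : Fin k → Fin t → Bool, (Fintype.card (Fin m → V × V) : ℝ) *
            (4 * Real.exp (-(a ^ 2 / 4 * m))) :=
          Finset.sum_le_sum fun π _ => objhat_dev G hΛ hm _ a ha0 ha
      _ = (Fintype.card (Fin m → V × V) : ℝ) *
          (2 ^ (k * t) * (4 * Real.exp (-(a ^ 2 / 4 * m)))) := by
          rw [Finset.sum_const, card_univ, nsmul_eq_mul]
          have : (Fintype.card (Fin k → Fin t → Bool) : ℝ) = 2 ^ (k * t) := by
            simp only [Fintype.card_fun, Fintype.card_bool, Fintype.card_fin]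
            push_cast
            rw [← pow_mul, mul_comm]
          rw [this]; ring
      _ ≤ _ := mul_le_mul_of_nonneg_left h4 (Nat.cast_nonneg _)
  calc ∑ U, ((univ.filter (fun W : Fin m → V × V =>
      accept G Λ lab (ρ + 3 * δ) U W)).card : ℝ)
      ≤ ∑ _U : Fin k → Fin t → V, (Fintype.card (Fin m → V × V) : ℝ) * (1 / 20) :=
        Finset.sum_le_sum fun U _ => hbound U
    _ = _ := by
        rw [Finset.sum_const, card_univ, nsmul_eq_mul, Fintype.card_prod]; push_cast; ring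

end

/-- numbers -/
theorem exp_eight (N : ℕ) : (2 : ℝ) ^ N * (4 * Real.exp (-((N : ℝ) + 8))) ≤ 1 / 40 := by
  have h1 : (2 : ℝ) ≤ Real.exp 1 := by
    have := Real.add_one_le_exp (1 : ℝ)
    linarith
  have h2 : Real.exp (-((N : ℝ) + 8)) = (Real.exp 1 ^ N)⁻¹ * (Real.exp 1 ^ 8)⁻¹ := by
    rw [← Real.exp_nat_mul, ← Real.exp_nat_mul, ← Real.exp_neg, ← Real.exp_neg, ← Real.exp_add]
    congr 1
    push_cast
    ring
  have h3 : (2 : ℝ) ^ N * (Real.exp 1 ^ N)⁻¹ ≤ 1 := by
    rw [← div_eq_mul_inv, div_le_one (by positivity)]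
    exact pow_le_pow_left₀ (by norm_num) h1 N
  have h4 : (256 : ℝ) ≤ Real.exp 1 ^ 8 := by
    calc (256 : ℝ) = 2 ^ 8 := by norm_num
      _ ≤ _ := pow_le_pow_left₀ (by norm_num) h1 8
  have h5 : (Real.exp 1 ^ 8)⁻¹ ≤ (256 : ℝ)⁻¹ := inv_anti₀ (by norm_num) h4
  rw [h2]
  calc (2 : ℝ) ^ N * (4 * ((Real.exp 1 ^ N)⁻¹ * (Real.exp 1 ^ 8)⁻¹)) =
      ((2 : ℝ) ^ N * (Real.exp 1 ^ N)⁻¹) * (4 * (Real.exp 1 ^ 8)⁻¹) := by ring
    _ ≤ 1 * (4 * (256 : ℝ)⁻¹) := by
        refine mul_le_mul h3 (by linarith) (by positivity) (by norm_num)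
    _ ≤ _ := by norm_num

theorem cmt : CmtStmt := by
  classical
  intro a n G lab r ha hn
  have : Nonempty (Fin n) := ⟨⟨0, hn⟩⟩
  have haR : (1 : ℝ) ≤ a := by exact_mod_cast ha
  have ha0 : (0 : ℝ) < a := by linarith
  set R : ℝ := 16 * a with hR
  have hR16 : 16 ≤ R := by rw [hR]; linarith
  have hR0 : 0 < R := by linarith
  have hΛ : (4 * (a : ℝ)) = R / 4 := by rw [hR]; ring
  have hΛ0 : (0 : ℝ) ≤ 4 * a := by positivity
  have hΛ1 : 1 + 4 * (a : ℝ) ≤ 5 * R / 16 := by rw [hΛ]; linarith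
  have ht : 0 < tt a := by
    unfold tt
    positivity
  have hk : 0 < tk a := by
    unfold tk
    positivity
  have hm : 0 < tm a := by
    unfold tm
    positivity
  have hkR : (0 : ℝ) < tk a := by exact_mod_cast hk
  have hk5 : 5 * R ^ 2 ≤ (tk a : ℝ) := by
    have h1 : 5 * (16 * a) ^ 2 ≤ tk a := by
      unfold tk tκ
      exact Nat.le_pow_clog (by norm_num) _
    have h2 : ((5 * (16 * a) ^ 2 : ℕ) : ℝ) ≤ (tk a : ℝ) := by exact_mod_cast h1
    rw [hR]
    push_cast at h2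
    linarith
  have hsq : Real.sqrt (tt a : ℝ) = 500 * R ^ 2 := by
    have : ((tt a : ℕ) : ℝ) = (500 * R ^ 2) ^ 2 := by
      unfold tt
      rw [hR]
      push_cast
      ring
    rw [this, Real.sqrt_sq (by positivity)]
  have hmR : (tm a : ℝ) = 16 * R ^ 4 * (tk a * tt a + 8) := by
    unfold tm
    rw [hR]
    push_cast
    ring
  have hδ : (0 : ℝ) < 1 / R := by positivity
  set b : ℝ := 1 / (2 * R ^ 2) with hb
  have hb0 : 0 ≤ b := by positivity
  have hR2 : 256 ≤ R ^ 2 := by nlinarith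
  have hb2 : b ≤ 2 := by
    rw [hb, div_le_iff₀ (by positivity)]
    linarith
  have hc3 : b * (1 + 4 * (a : ℝ)) ≤ 1 / R := by
    calc b * (1 + 4 * (a : ℝ)) ≤ b * (5 * R / 16) := mul_le_mul_of_nonneg_left hΛ1 hb0
      _ = 5 / 32 * (1 / R) := by rw [hb]; field_simp; norm_num
      _ ≤ 1 / R := by linarith
  have hexp : b ^ 2 / 4 * (tm a : ℝ) = ((tk a * tt a : ℕ) : ℝ) + 8 := by
    rw [hmR, hb]
    push_cast
    field_simp
    ring
  have hc4' := exp_eight (tk a * tt a)
  rw [← hexp] at hc4'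
  have hc4 : 4 * Real.exp (-(b ^ 2 / 4 * (tm a : ℝ))) ≤ 1 / 40 := by
    refine le_trans ?_ hc4'
    have h1 : (1 : ℝ) ≤ 2 ^ (tk a * tt a) := one_le_pow₀ (by norm_num)
    have h2 : 0 ≤ 4 * Real.exp (-(b ^ 2 / 4 * (tm a : ℝ))) := by positivity
    calc _ = 1 * (4 * Real.exp (-(b ^ 2 / 4 * (tm a : ℝ)))) := (one_mul _).symm
      _ ≤ _ := mul_le_mul_of_nonneg_right h1 h2
  constructor
  · intro hblock y hobj
    have hc1 : 10 * (1 + 4 * (a : ℝ)) / Real.sqrt (tt a : ℝ) ≤ 1 / R / 40 := by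
      rw [hsq, div_le_iff₀ (by positivity)]
      calc 10 * (1 + 4 * (a : ℝ)) ≤ 10 * (5 * R / 16) := by linarith
        _ ≤ 1 / R / 40 * (500 * R ^ 2) := by
            have : 1 / R / 40 * (500 * R ^ 2) = 12.5 * R := by field_simp; norm_num
            rw [this]
            linarith
    have hc2 : (tk a : ℝ) * ((4 * (a : ℝ) + 1) * (2 / (tk a : ℝ)) ^ 2) ≤ 1 / R := by
      have h1 : (tk a : ℝ) * ((4 * (a : ℝ) + 1) * (2 / (tk a : ℝ)) ^ 2) =
          4 * (1 + 4 * (a : ℝ)) / tk a := by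
        field_simp
        ring
      rw [h1, div_le_iff₀ hkR]
      calc 4 * (1 + 4 * (a : ℝ)) ≤ 4 * (5 * R / 16) := by linarith
        _ ≤ 1 / R * (5 * R ^ 2) := by
            have : 1 / R * (5 * R ^ 2) = 5 * R := by field_simp
            rw [this]
            linarith
        _ ≤ 1 / R * tk a := mul_le_mul_of_nonneg_left hk5 hδ.le
    have := complete' G hΛ0 ht hm lab r (1 / R) b (2 / tk a) hδ hb0 hb2
      (by simpa using hblock) hc1 hc2 hc3 hc4 y hobj
    exact this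
  · intro hobj
    exact sound' G hΛ0 hm lab r (1 / R) b hδ hb0 hb2 hc3 (hc4'.trans (by norm_num)) hobj

end Pool.Agent.UT.H25
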